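import Pool.Agent.P.MP_ba1811_co.Defs

namespace Pool.Agent.P.MP_ba1811_co

open Function

/-- `x` has `g` different representations as an element of `A` minus an element of `B`. -/
def Cov {G : Type} [AddCommGroup G] (g : ℕ) (A B : Set G) (x : G) : Prop :=
  ∃ φ : Fin g → G × G, Injective φ ∧
    ∀ j, (φ j).1 ∈ A ∧ (φ j).2 ∈ B ∧ x = (φ j).1 - (φ j).2

/-- Some elementary abelian group of order `p ^ n` has a `g`-fold difference basis of size at
most `m`. -/
def Good (p g n m : ℕ) : Prop :=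
  ∃ (G : Type) (_ : AddCommGroup G) (_ : Finite G), (∀ x : G, p • x = 0) ∧ Nat.card G = p ^ n ∧
    ∃ A : Set G, (∀ x, Cov g A A x) ∧ A.ncard ≤ m

section
variable {G G' : Type} [AddCommGroup G] [AddCommGroup G']

theorem Cov.mono {g : ℕ} {A B A' B' : Set G} {x : G} (h : Cov g A B x) (hA : A ⊆ A')
    (hB : B ⊆ B') : Cov g A' B' x := by
  obtain ⟨φ, hφ, h⟩ := h
  exact ⟨φ, hφ, fun j => ⟨hA (h j).1, hB (h j).2.1, (h j).2.2⟩⟩

theorem Cov.symm {g : ℕ} {A B : Set G} {x : G} (h : Cov g A B (-x)) : Cov g B A x := by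
  obtain ⟨φ, hφ, h⟩ := h
  refine ⟨fun j => (φ j).swap, Prod.swap_injective.comp hφ, fun j => ⟨(h j).2.1, (h j).1, ?_⟩⟩
  have := (h j).2.2
  simp only [Prod.fst_swap, Prod.snd_swap]
  rw [← neg_sub, ← this, neg_neg]

theorem cov_one {A B : Set G} {x : G} : Cov 1 A B x ↔ ∃ a ∈ A, ∃ b ∈ B, x = a - b := by
  constructor
  · rintro ⟨φ, -, h⟩
    exact ⟨_, (h 0).1, _, (h 0).2.1, (h 0).2.2⟩
  · rintro ⟨a, ha, b, hb, h⟩
    exact ⟨fun _ => (a, b), injective_of_subsingleton _, fun _ => ⟨ha, hb, h⟩⟩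

theorem Cov.le_rep [Finite G] {g : ℕ} {A : Set G} {x : G} (h : Cov g A A x) : g ≤ rep A x := by
  obtain ⟨φ, hφ, h⟩ := h
  have h1 : (Set.range φ).ncard = g := by
    rw [← Set.image_univ, Set.ncard_image_of_injective _ hφ, Set.ncard_univ]
    simp
  rw [← h1]
  refine Set.ncard_le_ncard ?_ (Set.toFinite _)
  rintro _ ⟨j, rfl⟩
  exact h j

theorem Cov.map {g : ℕ} {A B : Set G} {x : G} (h : Cov g A B x) (e : G ≃+ G') :
    Cov g (e '' A) (e '' B) (e x) := by
  obtain ⟨φ, hφ, h⟩ := h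
  refine ⟨fun j => Prod.map e e (φ j), (e.injective.prodMap e.injective).comp hφ, fun j =>
    ⟨⟨_, (h j).1, rfl⟩, ⟨_, (h j).2.1, rfl⟩, ?_⟩⟩
  simp only [Prod.map_fst, Prod.map_snd]
  rw [← map_sub, ← (h j).2.2]

theorem mul_card_le [Finite G] {g : ℕ} {A : Set G} (h : ∀ x, g ≤ rep A x) :
    g * Nat.card G ≤ A.ncard ^ 2 := by
  classical
  have := Fintype.ofFinite G
  have h1 := Finset.card_eq_sum_card_fiberwise (s := A.toFinset ×ˢ A.toFinset)
    (t := (Finset.univ : Finset G)) (f := fun q : G × G => q.1 - q.2) (fun _ _ => by simp)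
  rw [Finset.card_product, ← Set.ncard_eq_toFinset_card', ← sq] at h1
  rw [h1, Nat.card_eq_fintype_card, ← Finset.card_univ, mul_comm, ← smul_eq_mul,
    ← Finset.sum_const]
  refine Finset.sum_le_sum fun x _ => (h x).trans (le_of_eq ?_)
  unfold rep
  rw [← Set.ncard_coe_finset]
  congr 1
  ext q
  simp [and_assoc, eq_comm]

theorem nonempty_addEquiv_aux (K : Type) [Field K] [Finite K] [Module K G] [Module K G']
    [Finite G] [Finite G'] (hc : Nat.card G = Nat.card G') : Nonempty (G ≃+ G') := by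
  have i1 : Module.Finite K G := Module.Finite.of_finite
  have i2 : Module.Finite K G' := Module.Finite.of_finite
  have h1 : Nat.card G = Nat.card K ^ Module.finrank K G := Module.natCard_eq_pow_finrank
  have h2 : Nat.card G' = Nat.card K ^ Module.finrank K G' := Module.natCard_eq_pow_finrank
  rw [h1, h2] at hc
  have h3 := Nat.pow_right_injective (Finite.one_lt_card (α := K)) hc
  exact ⟨(LinearEquiv.ofFinrankEq G G' h3).toAddEquiv⟩

theorem nonempty_addEquiv (p : ℕ) [hp : Fact p.Prime] [Finite G] [Finite G']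
    (hG : ∀ x : G, p • x = 0) (hG' : ∀ x : G', p • x = 0) (hc : Nat.card G = Nat.card G') :
    Nonempty (G ≃+ G') :=
  @nonempty_addEquiv_aux G G' _ _ (ZMod p) _ _ (AddCommGroup.zmodModule hG)
    (AddCommGroup.zmodModule hG') _ _ hc

end

theorem Good.transfer {p g n m : ℕ} [Fact p.Prime] (h : Good p g n m) (G' : Type)
    [AddCommGroup G'] [Finite G'] (hG' : ∀ x : G', p • x = 0) (hc : Nat.card G' = p ^ n) :
    ∃ A : Set G', (∀ x, Cov g A A x) ∧ A.ncard ≤ m := by
  obtain ⟨G, _, _, hG, hcG, A, hA, hm⟩ := h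
  obtain ⟨e⟩ := nonempty_addEquiv p hG hG' (hcG.trans hc.symm)
  refine ⟨e '' A, fun x => ?_, by rwa [Set.ncard_image_of_injective _ e.injective]⟩
  have := (hA (e.symm x)).map e
  rwa [e.apply_symm_apply] at this

theorem pi_nsmul (p : ℕ) (ι : Type) (x : ι → ZMod p) : p • x = 0 := by
  ext i
  simp

theorem pi_card (p n : ℕ) : Nat.card (Fin n → ZMod p) = p ^ n := by
  simp [Nat.card_pi]

theorem Good.eta_bounds {p g n m : ℕ} [Fact p.Prime] (h : Good p g n m) :
    g * p ^ n ≤ eta g (Fin n → ZMod p) ^ 2 ∧ eta g (Fin n → ZMod p) ≤ m := by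
  obtain ⟨A, hA, hm⟩ := h.transfer (Fin n → ZMod p) (pi_nsmul p _) (pi_card p n)
  have hmem : A.ncard ∈ {m : ℕ | ∃ A : Set (Fin n → ZMod p), A.ncard = m ∧ ∀ x, g ≤ rep A x} :=
    ⟨A, rfl, fun x => (hA x).le_rep⟩
  refine ⟨?_, (Nat.sInf_le hmem).trans hm⟩
  obtain ⟨B, hB, hB'⟩ := Nat.sInf_mem ⟨_, hmem⟩
  have := mul_card_le hB'
  rw [pi_card, hB] at this
  exact this

theorem Good.prod {p g n m n' m' : ℕ} (h : Good p g n m) (h' : Good p 1 n' m') :
    Good p g (n + n') (m * m') := by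
  obtain ⟨G, _, _, hG, hcG, A, hA, hm⟩ := h
  obtain ⟨G', _, _, hG', hcG', A', hA', hm'⟩ := h'
  refine ⟨G × G', inferInstance, inferInstance, fun x => Prod.ext (hG x.1) (hG' x.2),
    by rw [Nat.card_prod, hcG, hcG', pow_add], A ×ˢ A', fun x => ?_,
    by rw [Set.ncard_prod]; exact Nat.mul_le_mul hm hm'⟩
  obtain ⟨φ, hφ, h⟩ := hA x.1
  obtain ⟨a, ha, b, hb, hab⟩ := cov_one.1 (hA' x.2)
  refine ⟨fun j => (((φ j).1, a), ((φ j).2, b)), fun i j hij => hφ ?_, fun j =>
    ⟨⟨(h j).1, ha⟩, ⟨(h j).2.1, hb⟩, Prod.ext (h j).2.2 hab⟩⟩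
  simp only [Prod.mk.injEq] at hij
  exact Prod.ext hij.1.1 hij.2.1

/-- The basis made of two complementary subspaces. -/
theorem good_trivial (p n : ℕ) [hp : Fact p.Prime] : Good p 1 n (2 * p ^ ((n + 1) / 2)) := by
  refine ⟨(Fin ((n + 1) / 2) → ZMod p) × (Fin (n / 2) → ZMod p), inferInstance, inferInstance,
    fun x => Prod.ext (pi_nsmul p _ x.1) (pi_nsmul p _ x.2), ?_,
    (Set.univ ×ˢ {0}) ∪ ({0} ×ˢ Set.univ), fun x => ?_, ?_⟩
  · rw [Nat.card_prod, pi_card, pi_card, ← pow_add]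
    congr 1
    omega
  · exact cov_one.2 ⟨(x.1, 0), by simp, (0, -x.2), by simp, by simp⟩
  · refine (Set.ncard_union_le _ _).trans ?_
    rw [Set.ncard_prod, Set.ncard_prod, Set.ncard_univ, Set.ncard_univ, pi_card, pi_card]
    have : p ^ (n / 2) ≤ p ^ ((n + 1) / 2) := Nat.pow_le_pow_right hp.out.pos (by omega)
    simp only [Set.ncard_singleton]
    omega

/-- Repairing the fibre over zero. -/
theorem good_of_fibre {p g n n' m : ℕ} [hp : Fact p.Prime] (H G : Type) [AddCommGroup H]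
    [AddCommGroup G] [Finite H] [Finite G] (hH : ∀ x : H, p • x = 0) (hG : ∀ x : G, p • x = 0)
    (hcH : Nat.card H = p ^ n) (hcG : Nat.card G = p ^ n') (hg : g ≤ p ^ n) (A : Set (H × G))
    (hA : ∀ x : H × G, x.1 ≠ 0 → Cov g A A x) (hm : A.ncard ≤ m) :
    Good p g (n + n') (m + g * (2 * p ^ ((n' + 1) / 2))) := by
  obtain ⟨X, hX, hXm⟩ := (good_trivial p n').transfer G hG hcG
  have := Fintype.ofFinite H
  obtain ⟨c⟩ : Nonempty (Fin g ↪ H) := by
    apply Function.Embedding.nonempty_of_card_le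
    rw [Fintype.card_fin, ← Nat.card_eq_fintype_card, hcH]
    exact hg
  refine ⟨H × G, inferInstance, inferInstance, fun x => Prod.ext (hH x.1) (hG x.2),
    by rw [Nat.card_prod, hcG, hcH, pow_add], A ∪ (Set.range c ×ˢ X), fun x => ?_, ?_⟩
  · by_cases hx : x.1 = 0
    · obtain ⟨a, ha, b, hb, hab⟩ := cov_one.1 (hX x.2)
      refine ⟨fun j => ((c j, a), (c j, b)), fun i j hij => c.injective ?_, fun j =>
        ⟨Or.inr ⟨⟨j, rfl⟩, ha⟩, Or.inr ⟨⟨j, rfl⟩, hb⟩, Prod.ext (by simp [hx]) hab⟩⟩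
      simp only [Prod.mk.injEq] at hij
      exact hij.1.1
    · exact (hA x hx).mono Set.subset_union_left Set.subset_union_left
  · refine (Set.ncard_union_le _ _).trans (Nat.add_le_add hm ?_)
    rw [Set.ncard_prod]
    refine Nat.mul_le_mul (le_of_eq ?_) hXm
    rw [← Set.image_univ, Set.ncard_image_of_injective _ c.injective, Set.ncard_univ]
    simp

theorem galois_nsmul (p n : ℕ) [Fact p.Prime] (x : GaloisField p n) : p • x = 0 := by
  simp

/-- The parabola. -/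
theorem good_parabola (p n : ℕ) [hp : Fact p.Prime] (hodd : Odd p) (hn : n ≠ 0) :
    Good p 1 (2 * n) (p ^ n + 2 * p ^ ((n + 1) / 2)) := by
  have hc : Nat.card (GaloisField p n) = p ^ n := GaloisField.card p n hn
  have h2 : (2 : GaloisField p n) ≠ 0 := by
    intro h
    have h' : ((2 : ℕ) : GaloisField p n) = 0 := by exact_mod_cast h
    rw [CharP.cast_eq_zero_iff (GaloisField p n) p] at h'
    have := (Nat.prime_dvd_prime_iff_eq hp.out Nat.prime_two).1 h'
    rw [this] at hodd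
    exact absurd hodd (by decide)
  have := good_of_fibre (p := p) (g := 1) (m := p ^ n) (GaloisField p n) (GaloisField p n)
    (galois_nsmul p n) (galois_nsmul p n) hc hc (Nat.one_le_pow _ _ hp.out.pos)
    (Set.range fun x => (x, x ^ 2)) (fun x hx => ?_) ?_
  · rwa [one_mul, ← two_mul] at this
  · refine cov_one.2 ⟨_, ⟨(x.2 + x.1 ^ 2) / (2 * x.1), rfl⟩, _,
      ⟨(x.2 - x.1 ^ 2) / (2 * x.1), rfl⟩, Prod.ext ?_ ?_⟩
    · simp only [Prod.fst_sub]
      field_simp
      ring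
    · simp only [Prod.snd_sub]
      field_simp
      ring
  · rw [← Set.image_univ]
    refine (Set.ncard_image_le (Set.toFinite _)).trans ?_
    rw [Set.ncard_univ, hc]

end Pool.Agent.P.MP_ba1811_co
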