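import Mathlib

namespace Pool.Agent.P.MP_ba1811_co

/-- The number of ordered pairs `(a, a')` in `A × A` with `d = a - a'`. -/
noncomputable def rep {G : Type} [AddCommGroup G] (A : Set G) (d : G) : ℕ :=
  {q : G × G | q.1 ∈ A ∧ q.2 ∈ A ∧ d = q.1 - q.2}.ncard

/-- The least size of a subset `A` of `G` such that every element of `G`, including `0`, is a
difference of two elements of `A` in at least `g` ways. -/
noncomputable def eta (g : ℕ) (G : Type) [AddCommGroup G] : ℕ :=
  sInf {m : ℕ | ∃ A : Set G, A.ncard = m ∧ ∀ x : G, g ≤ rep A x}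

end Pool.Agent.P.MP_ba1811_co
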