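import Pool.Agent.P.MP_ba1811_co.Basic

namespace Pool.Agent.P.MP_ba1811_co

open Function

/-- A code of covering radius one over an alphabet `U` of arbitrary size, of length `r + 1`, with
syndromes in `K × K × ZMod u`, where `r` is the order of the finite field `K`. -/
theorem exists_code (K U : Type) [Field K] [Finite K] [DecidableEq K] [AddCommGroup U] [Finite U]
    (u : ℕ) (hu : 0 < u) (hU : Nat.card K * u ≤ Nat.card U) :
    ∃ C : Set (Option K → U),
      C.ncard * (Nat.card K ^ 2 * u) ≤ Nat.card U ^ (Nat.card K + 1) ∧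
      ∀ y : Option K → U, ∃ i v, y - Pi.single i v ∈ C := by
  classical
  have : NeZero u := ⟨hu.ne'⟩
  have := Fintype.ofFinite K
  have := Fintype.ofFinite U
  obtain ⟨l, hl⟩ : ∃ l : U → K × ZMod u, Surjective l := by
    obtain ⟨e⟩ : Nonempty (K × ZMod u ↪ U) := by
      apply Function.Embedding.nonempty_of_card_le
      rw [Fintype.card_prod, ZMod.card, ← Nat.card_eq_fintype_card, ← Nat.card_eq_fintype_card]
      exact hU
    exact ⟨invFun e, invFun_surjective e.injective⟩
  let h : Option K → K × K := fun i => i.elim (0, 1) fun c => (1, c)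
  let t : Option K → U → (K × K) × ZMod u := fun i v => ((l v).1 • h i, (l v).2)
  let syn : (Option K → U) → (K × K) × ZMod u := fun x => ∑ i, t i (x i)
  have hcov : ∀ (σ : (K × K) × ZMod u) (y : Option K → U), ∃ (i : Option K) (v : U),
      syn (y - Pi.single i v) = σ := by
    intro σ y
    obtain ⟨i, c, hic⟩ : ∃ (i : Option K) (c : K), (σ - syn y).1 = c • h i := by
      by_cases h0 : (σ - syn y).1.1 = 0
      · exact ⟨none, (σ - syn y).1.2, Prod.ext (by simpa [h] using h0) (by simp [h])⟩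
      · refine ⟨some ((σ - syn y).1.2 / (σ - syn y).1.1), (σ - syn y).1.1,
          Prod.ext (by simp [h]) ?_⟩
        simp only [h, Option.elim_some, Prod.smul_mk, smul_eq_mul]
        field_simp
    obtain ⟨v, hv⟩ := hl ((l (y i)).1 + c, (l (y i)).2 + (σ - syn y).2)
    refine ⟨i, y i - v, ?_⟩
    have e1 : syn (y - Pi.single i (y i - v)) = syn y + (t i v - t i (y i)) := by
      simp only [syn]
      rw [← Finset.add_sum_erase _ _ (Finset.mem_univ i),
        ← Finset.add_sum_erase _ (fun j => t j (y j)) (Finset.mem_univ i)]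
      have e2 : ∑ j ∈ Finset.univ.erase i, t j ((y - Pi.single i (y i - v) : Option K → U) j) =
          ∑ j ∈ Finset.univ.erase i, t j (y j) := by
        refine Finset.sum_congr rfl fun j hj => ?_
        simp [Pi.single_eq_of_ne (Finset.ne_of_mem_erase hj)]
      rw [e2]
      simp only [Pi.sub_apply, Pi.single_eq_same, sub_sub_cancel]
      abel
    have e3 : t i v - t i (y i) = σ - syn y := by
      refine Prod.ext ?_ ?_
      · simp only [t, hv, Prod.fst_sub] at hic ⊢
        rw [hic, add_smul]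
        abel
      · simp [t, hv]
    rw [e1, e3]
    abel
  obtain ⟨σ, hσ⟩ : ∃ σ, (Finset.univ.filter fun x => syn x = σ).card * (Nat.card K ^ 2 * u) ≤
      Nat.card U ^ (Nat.card K + 1) := by
    by_contra hcon
    push Not at hcon
    have h1 := Finset.card_eq_sum_card_fiberwise (s := (Finset.univ : Finset (Option K → U)))
      (t := (Finset.univ : Finset ((K × K) × ZMod u))) (f := syn) (fun _ _ => by simp)
    have h2 := Finset.sum_lt_sum_of_nonempty
      (s := (Finset.univ : Finset ((K × K) × ZMod u))) Finset.univ_nonempty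
      (fun σ _ => hcon σ)
    rw [← Finset.sum_mul, ← h1] at h2
    simp only [Finset.sum_const, Finset.card_univ, Fintype.card_prod, ZMod.card, smul_eq_mul,
      Fintype.card_pi, Finset.prod_const, Fintype.card_option, Nat.card_eq_fintype_card] at h2
    rw [sq] at h2
    exact absurd h2 (by rw [mul_comm]; exact lt_irrefl _)
  refine ⟨{x | syn x = σ}, ?_, fun y => hcov σ y⟩
  convert hσ
  rw [← Set.ncard_coe_finset]
  congr 1
  ext x
  simp

theorem exists_surj (M : ℕ) (X : Type) [Finite X] [Nonempty X] (h : Nat.card X ≤ M) :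
    ∃ f : Fin M → X, Surjective f := by
  have := Fintype.ofFinite X
  obtain ⟨e⟩ : Nonempty (X ↪ Fin M) := by
    apply Function.Embedding.nonempty_of_card_le
    rwa [Fintype.card_fin, ← Nat.card_eq_fintype_card]
  exact ⟨invFun e, invFun_surjective e.injective⟩

/-- Two lists of length `M` in `Y` with every element of `Y` a difference in `g` ways. -/
def Lists (g M : ℕ) (Y : Type) [AddCommGroup Y] : Prop :=
  ∃ σ τ : Fin M → Y, ∀ y, ∃ φ : Fin g → Fin M × Fin M, Injective φ ∧
    ∀ j, y = σ (φ j).1 - τ (φ j).2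

theorem exists_lists (p : ℕ) [hp : Fact p.Prime] (g k a w M : ℕ) (hg : 0 < g) (hk : k ≠ 0)
    (hu : 2 ^ k ≤ p ^ a) (hM1 : g * ((2 ^ k + 1) * p ^ a * p ^ w) ≤ M)
    (hM2 : p ^ (a * (2 ^ k + 1)) < (M + 1) * ((2 ^ k) ^ 2 * (p ^ a / 2 ^ k)))
    (Y : Type) [AddCommGroup Y] [Finite Y] (hY : ∀ y : Y, p • y = 0)
    (hc : Nat.card Y = p ^ (a * (2 ^ k + 1) + w)) : Lists g M Y := by
  classical
  have h2 : Fact (Nat.Prime 2) := ⟨Nat.prime_two⟩
  have hK : Nat.card (GaloisField 2 k) = 2 ^ k := GaloisField.card 2 k hk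
  have hu0 : 0 < p ^ a / 2 ^ k := Nat.div_pos hu (by positivity)
  obtain ⟨C, hC, hcov⟩ := exists_code (GaloisField 2 k) (Fin a → ZMod p) (p ^ a / 2 ^ k) hu0
    (by rw [hK, pi_card]; exact Nat.mul_div_le _ _)
  rw [hK, pi_card, ← pow_mul p] at hC
  have hCM : C.ncard ≤ M := by
    exact Nat.lt_succ_iff.1 (Nat.lt_of_mul_lt_mul_right (hC.trans_lt hM2))
  have hCne : Nonempty C := by
    obtain ⟨i, v, h⟩ := hcov 0
    exact ⟨⟨_, h⟩⟩
  have : Nonempty (Fin g) := ⟨⟨0, hg⟩⟩
  obtain ⟨e⟩ : Nonempty (((Option (GaloisField 2 k) → Fin a → ZMod p) × (Fin w → ZMod p)) ≃+ Y) := by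
    refine nonempty_addEquiv p (fun x => Prod.ext ?_ (pi_nsmul p _ x.2)) hY ?_
    · ext i j
      simp
    · have := Fintype.ofFinite (GaloisField 2 k)
      rw [hc, Nat.card_prod, Nat.card_fun, pi_card, pi_card, Finite.card_option, hK, ← pow_mul,
        pow_add]
  obtain ⟨f1, hf1⟩ := exists_surj M
    (Fin g × (Option (GaloisField 2 k) × (Fin a → ZMod p)) × (Fin w → ZMod p)) (by
      rw [Nat.card_prod, Nat.card_prod, Nat.card_prod, pi_card, pi_card, Finite.card_option, hK,
        Nat.card_eq_fintype_card, Fintype.card_fin]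
      exact hM1)
  obtain ⟨f2, hf2⟩ := exists_surj M C hCM
  refine ⟨fun ι => e (Pi.single (f1 ι).2.1.1 (f1 ι).2.1.2, (f1 ι).2.2),
    fun ι => e (-(f2 ι : Option (GaloisField 2 k) → Fin a → ZMod p), 0), fun y => ?_⟩
  obtain ⟨i, v, h⟩ := hcov (e.symm y).1
  choose s1 hs1 using hf1
  obtain ⟨ι', hι'⟩ := hf2 ⟨_, h⟩
  refine ⟨fun j => (s1 (j, (i, v), (e.symm y).2), ι'), fun j j' hj => ?_, fun j => ?_⟩
  · have := congrArg (fun q => (f1 q.1).1) hj
    simpa [hs1] using this
  · simp only [hs1, hι']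
    rw [← map_sub, ← e.symm_apply_eq]
    refine Prod.ext ?_ ?_ <;> simp

end Pool.Agent.P.MP_ba1811_co
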