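import Pool.Agent.P.MP_ba1811_co.Factor

namespace Pool.Agent.P.MP_ba1811_co

open Function Polynomial

/-- Reed-Solomon gluing: `K` sets of polynomials of degree less than `2 K - 1`; the pair `a, b`
only sees the value at one point attached to the pair. -/
theorem glue (F : Type) [Field F] [Finite F] (K M g : ℕ) (hK : 1 ≤ K)
    (hKF : K * K + (K - 1) ≤ Nat.card F) (hMF : M ≤ Nat.card F) (hL : Lists g M F) :
    ∃ B : Fin K → Set (degreeLT F (2 * K - 1)), (∀ a, (B a).ncard ≤ M * Nat.card F ^ (K - 1)) ∧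
      ∀ a b, a ≠ b → ∀ z, Cov g (B a) (B b) z := by
  classical
  obtain ⟨σ, τ, hL⟩ := hL
  have := Fintype.ofFinite F
  obtain ⟨j⟩ : Nonempty ((Fin K × Fin K) ⊕ Fin (K - 1) ↪ F) := by
    apply Function.Embedding.nonempty_of_card_le
    simpa [Nat.card_eq_fintype_card] using hKF
  obtain ⟨lab⟩ : Nonempty (Fin M ↪ F) := by
    apply Function.Embedding.nonempty_of_card_le
    simpa [Nat.card_eq_fintype_card] using hMF
  let pt : Fin K → Fin K → F := fun a b => j (Sum.inl (min a b, max a b))
  have hsymm : ∀ a b, pt a b = pt b a := fun a b => by simp only [pt, min_comm, max_comm]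
  have hpt : ∀ a c b c', pt a c = pt b c' → (a = b ∧ c = c') ∨ (a = c' ∧ c = b) := by
    intro a c b c' h
    have h1 := j.injective h
    simp only [Sum.inl.injEq, Prod.mk.injEq] at h1
    obtain ⟨h1, h2⟩ := h1
    rcases le_total a c with h3 | h3 <;> rcases le_total b c' with h4 | h4 <;>
      simp only [min_eq_left, min_eq_right, max_eq_left, max_eq_right, h3, h4] at h1 h2 <;>
      simp [h1, h2]
  let val : Fin K → Fin K → Fin M → F := fun a c ι =>
    if a < c then σ ι else if c < a then τ ι else lab ι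
  let B : Fin K → Set (degreeLT F (2 * K - 1)) := fun a =>
    {f | ∃ ι, ∀ c, (f : F[X]).eval (pt a c) = val a c ι}
  have hlt : ∀ a b, a < b → ∀ z, Cov g (B a) (B b) z := by
    intro a b hab z
    obtain ⟨φ, hφ, hz⟩ := hL ((z : F[X]).eval (pt a b))
    let s : Finset (Fin K ⊕ Fin K) := Finset.univ.erase (Sum.inr a)
    let v : Fin K ⊕ Fin K → F := Sum.elim (pt a) (pt b)
    have hs : s.card = 2 * K - 1 := by
      simp only [s, Finset.card_erase_of_mem (Finset.mem_univ _), Finset.card_univ,
        Fintype.card_sum, Fintype.card_fin]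
      omega
    have hv : Set.InjOn v s := by
      rintro (c | c) hc (c' | c') hc' h <;>
        simp only [v, Sum.elim_inl, Sum.elim_inr] at h <;>
        simp only [s, Finset.coe_erase, Finset.coe_univ, Set.mem_sdiff, Set.mem_univ,
          Set.mem_singleton_iff, true_and, Sum.inr.injEq, reduceCtorEq,
          not_false_eq_true] at hc hc' <;>
        rcases hpt _ _ _ _ h with ⟨h1, h2⟩ | ⟨h1, h2⟩
      · rw [h2]
      · rw [← h1, h2]
      · exact absurd h1 hab.ne
      · exact absurd h1.symm hc'
      · exact absurd h1 hab.ne'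
      · exact absurd h2 hc
      · rw [h2]
      · rw [← h1, h2]
    let r : Fin g → Fin K ⊕ Fin K → F := fun i => Sum.elim (fun c => val a c (φ i).1)
      (fun c => val b c (φ i).2 + (z : F[X]).eval (pt b c))
    have hdeg : ∀ i, Lagrange.interpolate s v (r i) ∈ degreeLT F (2 * K - 1) := by
      intro i
      rw [mem_degreeLT, ← hs]
      exact Lagrange.degree_interpolate_lt _ hv
    let f : Fin g → degreeLT F (2 * K - 1) := fun i => ⟨_, hdeg i⟩
    have hfa : ∀ i c, (f i : F[X]).eval (pt a c) = val a c (φ i).1 := fun i c =>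
      Lagrange.eval_interpolate_at_node (i := Sum.inl c) (r i) hv (by simp [s])
    have hfb : ∀ i c, ((f i - z : degreeLT F (2 * K - 1)) : F[X]).eval (pt b c) =
        val b c (φ i).2 := by
      intro i c
      rw [Submodule.coe_sub, eval_sub]
      by_cases hc : c = a
      · rw [hc, hsymm b a, hfa, hz i]
        simp [val, hab, hab.not_gt]
      · have : (f i : F[X]).eval (pt b c) = val b c (φ i).2 + (z : F[X]).eval (pt b c) :=
          Lagrange.eval_interpolate_at_node (i := Sum.inr c) (r i) hv (by simp [s, hc])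
        rw [this]
        ring
    refine ⟨fun i => (f i, f i - z), fun i i' h => hφ ?_, fun i =>
      ⟨⟨_, hfa i⟩, ⟨_, hfb i⟩, by simp⟩⟩
    simp only [Prod.mk.injEq] at h
    have h1 := hfa i a
    have h2 := hfb i b
    rw [h.1, hfa] at h1
    rw [h.2, hfb] at h2
    simp only [val, lt_self_iff_false, if_false] at h1 h2
    exact Prod.ext (lab.injective h1).symm (lab.injective h2).symm
  refine ⟨B, fun a => ?_, fun a b hab z => ?_⟩
  · have hB : ∀ f : B a, ∃ ι, ∀ c, ((f : degreeLT F (2 * K - 1)) : F[X]).eval (pt a c) =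
        val a c ι := fun f => f.2
    choose ι hι using hB
    have hinj : Injective fun f : B a => (ι f, fun c : Fin (K - 1) =>
        ((f : degreeLT F (2 * K - 1)) : F[X]).eval (j (Sum.inr c))) := by
      intro f f' h
      simp only [Prod.mk.injEq] at h
      let v : Fin K ⊕ Fin (K - 1) → F := Sum.elim (pt a) fun c => j (Sum.inr c)
      have hv : Set.InjOn v (Finset.univ : Finset (Fin K ⊕ Fin (K - 1))) := by
        rintro (c | c) - (c' | c') - h' <;> simp only [v, Sum.elim_inl, Sum.elim_inr] at h'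
        · rcases hpt _ _ _ _ h' with ⟨h1, h2⟩ | ⟨h1, h2⟩
          · rw [h2]
          · rw [← h1, h2]
        · exact absurd (j.injective h') (by simp)
        · exact absurd (j.injective h') (by simp)
        · simpa using j.injective h'
      have h0 : (((f : degreeLT F (2 * K - 1)) - f' : degreeLT F (2 * K - 1)) : F[X]) = 0 := by
        refine eq_zero_of_degree_lt_of_eval_index_eq_zero Finset.univ hv ?_ ?_
        · have := mem_degreeLT.1 ((f : degreeLT F (2 * K - 1)) - f').2
          rw [Finset.card_univ, Fintype.card_sum, Fintype.card_fin, Fintype.card_fin]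
          have e : K + (K - 1) = 2 * K - 1 := by omega
          rwa [e]
        · rintro (c | c) -
          · simp only [v, Sum.elim_inl, Submodule.coe_sub, eval_sub, hι, h.1, sub_self]
          · simp only [v, Sum.elim_inr, Submodule.coe_sub, eval_sub, congrFun h.2 c, sub_self]
      exact Subtype.ext (sub_eq_zero.1 (Subtype.ext h0))
    have := Nat.card_le_card_of_injective _ hinj
    rw [Nat.card_coe_set_eq, Nat.card_prod, Nat.card_fun] at this
    simpa using this
  · rcases lt_or_gt_of_ne hab with h | h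
    · exact hlt a b h z
    · exact (hlt b a h (-z)).symm

/-- The main construction. -/
theorem good_main (p : ℕ) [hp : Fact p.Prime] (g M d κ K : ℕ) (hd : d ≠ 0) (hK : 1 ≤ K)
    (hD : Good p 1 (2 * κ) K) (hg : g ≤ p ^ (2 * κ)) (hKF : K * K + (K - 1) ≤ p ^ d)
    (hMF : M ≤ p ^ d) (hL : Lists g M (GaloisField p d)) :
    Good p g (2 * κ + d * (2 * K - 1))
      (K * (M * (p ^ d) ^ (K - 1)) + g * (2 * p ^ ((d * (2 * K - 1) + 1) / 2))) := by
  classical
  have hc : Nat.card (GaloisField p d) = p ^ d := GaloisField.card p d hd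
  obtain ⟨B, hB, hcov⟩ := glue (GaloisField p d) K M g hK (by rwa [hc]) (by rwa [hc]) hL
  obtain ⟨H, _, _, hH, hcH, D, hDcov, hDK⟩ := hD
  have hDne : Nonempty D := by
    obtain ⟨a, ha, -⟩ := cov_one.1 (hDcov 0)
    exact ⟨⟨a, ha⟩⟩
  obtain ⟨t, ht⟩ := exists_surj K D (by rwa [Nat.card_coe_set_eq])
  have e := degreeLTEquiv (GaloisField p d) (2 * K - 1)
  have hfin : Finite (degreeLT (GaloisField p d) (2 * K - 1)) := Finite.of_equiv _ e.symm.toEquiv
  refine good_of_fibre H (degreeLT (GaloisField p d) (2 * K - 1)) hH (fun x => ?_) hcH ?_ hg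
    (⋃ a, {(t a : H)} ×ˢ B a) (fun x hx => ?_) ?_
  · apply e.injective
    rw [map_nsmul, map_zero]
    ext i
    simp
  · rw [Nat.card_congr e.toEquiv, Nat.card_fun, hc, ← pow_mul]
    simp
  · obtain ⟨a, ha, b, hb, hab⟩ := cov_one.1 (hDcov x.1)
    obtain ⟨a', ha'⟩ := ht ⟨a, ha⟩
    obtain ⟨b', hb'⟩ := ht ⟨b, hb⟩
    have hne : a' ≠ b' := by
      rintro rfl
      apply hx
      have : a = b := congrArg Subtype.val (ha'.symm.trans hb')
      rw [hab, this, sub_self]
    obtain ⟨φ, hφ, h⟩ := hcov a' b' hne x.2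
    refine ⟨fun i => ((a, (φ i).1), (b, (φ i).2)), fun i i' hi => hφ ?_, fun i =>
      ⟨Set.mem_iUnion.2 ⟨a', by simp [ha'], (h i).1⟩,
        Set.mem_iUnion.2 ⟨b', by simp [hb'], (h i).2.1⟩, Prod.ext hab (h i).2.2⟩⟩
    simp only [Prod.mk.injEq, true_and] at hi
    exact Prod.ext hi.1 hi.2
  · refine (Set.ncard_iUnion_le_of_fintype _).trans ?_
    refine (Finset.sum_le_sum (g := fun _ => M * (p ^ d) ^ (K - 1)) fun a _ => ?_).trans ?_
    · rw [Set.ncard_prod, Set.ncard_singleton, one_mul, ← hc]
      exact hB a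
    · simp

end Pool.Agent.P.MP_ba1811_co
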