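import Pool.Agent.P.MP_ba1811_co.Glue

namespace Pool.Agent.P.MP_ba1811_co

open Filter Topology

theorem irrational_log (p : ℕ) (hp : 1 < p) (hodd : Odd p) :
    Irrational (Real.log 2 / Real.log p) := by
  rintro ⟨q, hq⟩
  have hp' : (1 : ℝ) < p := by exact_mod_cast hp
  have hL : 0 < Real.log p := Real.log_pos hp'
  have h2 : 0 < Real.log 2 := Real.log_pos one_lt_two
  have hq0 : (0 : ℝ) < q := by rw [hq]; positivity
  have hnum : 0 ≤ q.num := Rat.num_nonneg.2 (by exact_mod_cast hq0.le)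
  obtain ⟨n, hn⟩ := Int.eq_ofNat_of_zero_le hnum
  have hden : (q.den : ℝ) ≠ 0 := by exact_mod_cast q.den_nz
  rw [Rat.cast_def, hn, div_eq_div_iff hden hL.ne'] at hq
  have h3 : Real.log ((p : ℝ) ^ n) = Real.log ((2 : ℝ) ^ q.den) := by
    rw [Real.log_pow, Real.log_pow, mul_comm (q.den : ℝ), ← hq]
    simp
  have h4 : (p : ℝ) ^ n = 2 ^ q.den :=
    Real.log_injOn_pos (Set.mem_Ioi.2 (by positivity)) (Set.mem_Ioi.2 (by positivity)) h3
  have h5 : p ^ n = 2 ^ q.den := by exact_mod_cast h4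
  have h6 : Odd (2 ^ q.den) := h5 ▸ hodd.pow
  exact (Nat.not_even_iff_odd.2 h6) ((Nat.even_pow' q.den_nz).2 even_two)

theorem exists_pow_close (p : ℕ) (hp : 1 < p) (hodd : Odd p) (θ η : ℝ) (hθ : 0 < θ)
    (hη : 1 < η) (k0 : ℕ) :
    ∃ k j : ℕ, k0 ≤ k ∧ θ * (p : ℝ) ^ j ≤ η * 2 ^ k ∧ (2 : ℝ) ^ k ≤ η * (θ * (p : ℝ) ^ j) := by
  have hp' : (1 : ℝ) < p := by exact_mod_cast hp
  have hL : 0 < Real.log p := Real.log_pos hp'
  have h2 : 0 < Real.log 2 := Real.log_pos one_lt_two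
  have hε : 0 < Real.log η := Real.log_pos hη
  have : Fact (0 < Real.log p) := ⟨hL⟩
  have hd := AddCircle.denseRange_zsmul_coe_iff.2 (irrational_log p hp hodd)
  have hc : MapClusterPt ((Real.log θ : ℝ) : AddCircle (Real.log p)) atTop
      (fun n : ℕ => n • ((Real.log 2 : ℝ) : AddCircle (Real.log p))) :=
    ((mapClusterPt_atTop_nsmul_tfae _ _).out 0 3).2 (hd _)
  have hfr := hc.frequently (Metric.ball_mem_nhds _ hε)
  have hev : ∀ᶠ n : ℕ in atTop, k0 ≤ n ∧ Real.log θ ≤ n * Real.log 2 :=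
    (eventually_ge_atTop k0).and
      ((tendsto_natCast_atTop_atTop.atTop_mul_const h2).eventually_ge_atTop _)
  obtain ⟨k, hk1, hk2, hk3⟩ := (hfr.and_eventually hev).exists
  rw [dist_eq_norm, ← AddCircle.coe_nsmul, ← AddCircle.coe_sub,
    AddCircle.norm_eq, nsmul_eq_mul] at hk1
  have hr : 0 ≤ round ((Real.log p)⁻¹ * (k * Real.log 2 - Real.log θ)) := by
    rw [round_eq, Int.floor_nonneg]
    have : 0 ≤ (Real.log p)⁻¹ * (k * Real.log 2 - Real.log θ) :=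
      mul_nonneg (inv_nonneg.2 hL.le) (sub_nonneg.2 hk3)
    linarith
  obtain ⟨j, hj⟩ := Int.eq_ofNat_of_zero_le hr
  rw [hj, abs_lt, Int.cast_natCast] at hk1
  have hη0 : 0 < η := by linarith
  refine ⟨k, j, hk2, ?_, ?_⟩
  · rw [← Real.log_le_log_iff (by positivity) (by positivity), Real.log_mul hθ.ne' (by positivity),
      Real.log_mul hη0.ne' (by positivity), Real.log_pow, Real.log_pow]
    linarith [hk1.1]
  · rw [← Real.log_le_log_iff (by positivity) (by positivity),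
      Real.log_mul hη0.ne' (by positivity), Real.log_mul hθ.ne' (by positivity), Real.log_pow,
      Real.log_pow]
    linarith [hk1.2]

theorem pow_eq_sqrt_pow (p n : ℕ) : (p : ℝ) ^ n = √p ^ (2 * n) := by
  rw [pow_mul, Real.sq_sqrt (Nat.cast_nonneg p)]

theorem one_lt_sqrt {p : ℕ} (hp : 1 < p) : 1 < √(p : ℝ) := by
  rw [Real.lt_sqrt zero_le_one]
  exact_mod_cast hp

theorem half_pow_le {p : ℕ} (hp : 1 < p) (m : ℕ) :
    (p : ℝ) ^ ((m + 1) / 2) ≤ √p * √p ^ m := by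
  rw [pow_eq_sqrt_pow, ← pow_succ']
  exact pow_le_pow_right₀ (one_lt_sqrt hp).le (by omega)

theorem parabola_size {p : ℕ} (hp : 1 < p) {η : ℝ} {n : ℕ} (h : 2 * √p ≤ (η - 1) * √p ^ n) :
    ((p ^ n + 2 * p ^ ((n + 1) / 2) : ℕ) : ℝ) ≤ η * √p ^ (2 * n) := by
  have h1 := half_pow_le hp n
  have h2 : (0 : ℝ) < √p ^ n := pow_pos (one_pos.trans (one_lt_sqrt hp)) n
  have h3 : √(p : ℝ) ^ (2 * n) = √p ^ n * √p ^ n := by rw [two_mul, pow_add]
  push_cast
  rw [pow_eq_sqrt_pow p n, h3]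
  nlinarith [mul_le_mul_of_nonneg_right h h2.le]

theorem eventually_big {p : ℕ} (hp : 1 < p) {η : ℝ} (hη : 1 < η) (c : ℝ) :
    ∀ᶠ n : ℕ in atTop, c ≤ (η - 1) * √p ^ n :=
  ((tendsto_pow_atTop_atTop_of_one_lt (one_lt_sqrt hp)).const_mul_atTop
    (sub_pos.2 hη)).eventually_ge_atTop _

/-- Balanced lists of any scale. -/
theorem exists_lists' (p : ℕ) [hp : Fact p.Prime] (hodd : Odd p) (g : ℕ) (hg : 0 < g) (η : ℝ)
    (hη : 1 < η) (ρ N : ℕ) : ∃ t M : ℕ, 2 * t + ρ ≠ 0 ∧ N ≤ p ^ (2 * t + ρ) ∧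
      M ≤ p ^ (2 * t + ρ) ∧ (M : ℝ) ≤ η ^ 2 * √g * √p ^ (2 * t + ρ) ∧
      Lists g M (GaloisField p (2 * t + ρ)) := by
  have hp1 := hp.out.one_lt
  have hs := one_lt_sqrt hp1
  have hs0 : (0 : ℝ) < √p := one_pos.trans hs
  have hg' : (0 : ℝ) < √g := Real.sqrt_pos.2 (by exact_mod_cast hg)
  have hgg : √(g : ℝ) * √g = g := Real.mul_self_sqrt (Nat.cast_nonneg g)
  obtain ⟨u0, hu0⟩ := exists_nat_ge (η - 1)⁻¹
  have hη1 : 0 < η - 1 := sub_pos.2 hη
  have hbig : ∀ x : ℕ, u0 ≤ x → (x : ℝ) + 1 ≤ η * x := by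
    intro x hx
    have h1 : (η - 1)⁻¹ ≤ x := hu0.trans (by exact_mod_cast hx)
    rw [inv_le_iff_one_le_mul₀' hη1] at h1
    linarith
  obtain ⟨k, j, hk, h1, h2⟩ := exists_pow_close p hp1 hodd (√p ^ ρ / √g) η (by positivity) hη
    (u0 + 1)
  set r := 2 ^ k with hr
  have hrk : k < r := Nat.lt_two_pow_self
  have hr2 : 2 ≤ r := by omega
  have hrc : (2 : ℝ) ^ k = r := by rw [hr]; push_cast; rfl
  set w := 2 * j + ρ with hw
  have hsw : √(p : ℝ) ^ ρ / √g * (p : ℝ) ^ j = √p ^ w / √g := by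
    rw [pow_eq_sqrt_pow p j, hw, pow_add]
    ring
  rw [hsw, hrc] at h1 h2
  have h1' : √(p : ℝ) ^ w ≤ η * r * √g := by rwa [div_le_iff₀ hg'] at h1
  have h2' : r * √(g : ℝ) ≤ η * √p ^ w := by rwa [← mul_div_assoc, le_div_iff₀ hg'] at h2
  obtain ⟨a, ha⟩ : ∃ a, a = g * (r + 1) + N + r * (u0 + 1) + w + 1 := ⟨_, rfl⟩
  have hpa : a < p ^ a := Nat.lt_pow_self hp1
  obtain ⟨w', hw'⟩ : ∃ w', a * (r + 1) = 2 * a + w + w' := by
    refine Nat.exists_eq_add_of_le ?_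
    have : a * 3 ≤ a * (r + 1) := Nat.mul_le_mul_left _ (by omega)
    omega
  have hd : 2 * (a + j + w') + ρ = a * (r + 1) + w' := by omega
  have hu : u0 + 1 ≤ p ^ a / r := by
    rw [Nat.le_div_iff_mul_le (by omega), mul_comm]
    omega
  set u := p ^ a / r with hudef
  have hru : 0 < r ^ 2 * u := Nat.mul_pos (by positivity) (by omega)
  have hpd : p ^ a ≤ p ^ (2 * (a + j + w') + ρ) := Nat.pow_le_pow_right hp.out.pos (by omega)
  have hsd : √(p : ℝ) ^ (2 * (a + j + w') + ρ) = (p : ℝ) ^ a * (p : ℝ) ^ w' * √p ^ w := by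
    rw [pow_eq_sqrt_pow p a, pow_eq_sqrt_pow p w', ← pow_add, ← pow_add]
    congr 1
    omega
  have hP : (0 : ℝ) < (p : ℝ) ^ a * (p : ℝ) ^ w' := by
    have : (0 : ℝ) < p := by exact_mod_cast hp.out.pos
    positivity
  refine ⟨a + j + w', max (g * ((r + 1) * p ^ a * p ^ w')) (p ^ (a * (r + 1)) / (r ^ 2 * u)),
    by omega, by omega, max_le ?_ ?_, ?_, ?_⟩
  · have e1 : g * (r + 1) ≤ p ^ a := by omega
    calc g * ((r + 1) * p ^ a * p ^ w') = g * (r + 1) * (p ^ a * p ^ w') := by ring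
      _ ≤ p ^ a * (p ^ a * p ^ w') := Nat.mul_le_mul_right _ e1
      _ = p ^ (a + (a + w')) := by rw [pow_add, pow_add]
      _ ≤ _ := Nat.pow_le_pow_right hp.out.pos (by omega)
  · exact (Nat.div_le_self _ _).trans (Nat.pow_le_pow_right hp.out.pos (by omega))
  · rw [Nat.cast_max, hsd]
    refine max_le ?_ ?_
    · have e1 := hbig r (by omega)
      have e2 : (g : ℝ) * (r + 1) ≤ η ^ 2 * √g * √p ^ w := by
        calc (g : ℝ) * (r + 1) ≤ g * (η * r) := by gcongr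
          _ = η * √g * (r * √g) := by
            conv_lhs => rw [← hgg]
            ring
          _ ≤ η * √g * (η * √p ^ w) := by gcongr
          _ = _ := by ring
      push_cast
      calc (g : ℝ) * ((r + 1) * (p : ℝ) ^ a * (p : ℝ) ^ w')
          = g * (r + 1) * ((p : ℝ) ^ a * (p : ℝ) ^ w') := by ring
        _ ≤ η ^ 2 * √g * √p ^ w * ((p : ℝ) ^ a * (p : ℝ) ^ w') := by gcongr
        _ = _ := by ring
    · refine Nat.cast_div_le.trans ?_
      rw [div_le_iff₀ (by exact_mod_cast hru)]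
      have e1 := hbig u (by omega)
      have e2 : (p : ℝ) ^ a ≤ r * (η * u) := by
        have : p ^ a < r * (u + 1) := Nat.lt_mul_div_succ _ (by omega)
        have h3 : (p : ℝ) ^ a ≤ r * (u + 1) := by exact_mod_cast this.le
        exact h3.trans (by gcongr)
      have e3 : (p : ℝ) ^ w = √p ^ w * √p ^ w := by
        rw [pow_eq_sqrt_pow p w, two_mul, pow_add]
      push_cast
      rw [hw', pow_add, pow_add, two_mul, pow_add, e3]
      calc (p : ℝ) ^ a * (p : ℝ) ^ a * (√p ^ w * √p ^ w) * (p : ℝ) ^ w'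
          = (p : ℝ) ^ a * √p ^ w * ((p : ℝ) ^ a * (p : ℝ) ^ w' * √p ^ w) := by ring
        _ ≤ r * (η * u) * (η * r * √g) * ((p : ℝ) ^ a * (p : ℝ) ^ w' * √p ^ w) := by gcongr
        _ = _ := by ring
  · have hra : r ≤ p ^ a := by
      have : r * 1 ≤ r * (u0 + 1) := Nat.mul_le_mul_left _ (by omega)
      omega
    refine exists_lists p g k a w' _ hg (by omega) hra (le_max_left _ _) ?_ _
      (galois_nsmul p _) ?_
    · refine (Nat.lt_mul_div_succ _ hru).trans_le ?_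
      rw [mul_comm]
      exact Nat.mul_le_mul_right _ (Nat.succ_le_succ (le_max_right _ _))
    · rw [GaloisField.card p _ (by omega), hd]

theorem exists_good (p : ℕ) [hp : Fact p.Prime] (hodd : Odd p) (g : ℕ) (hg : 0 < g) (η : ℝ)
    (hη : 1 < η) (ρ : ℕ) : ∃ t m : ℕ, Good p g (2 * t + ρ) m ∧
      (m : ℝ) ≤ (η ^ 3 * √g + (η - 1)) * √p ^ (2 * t + ρ) := by
  have hp1 := hp.out.one_lt
  have hs := one_lt_sqrt hp1
  have hs0 : (0 : ℝ) < √p := one_pos.trans hs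
  have hg1 : (1 : ℝ) ≤ g := by exact_mod_cast hg
  obtain ⟨κ, hκ1, hκ2⟩ := ((eventually_big hp1 hη (g * (2 * √p))).and
    (eventually_ge_atTop g)).exists
  have hκ3 : 2 * √(p : ℝ) ≤ (η - 1) * √p ^ κ := le_trans (by nlinarith) hκ1
  have hKr := parabola_size hp1 hκ3
  have hD := good_parabola p κ hodd (by omega)
  set K := p ^ κ + 2 * p ^ ((κ + 1) / 2) with hK
  have hK1 : 1 ≤ K := le_add_right (Nat.one_le_pow _ _ hp.out.pos)
  obtain ⟨t, M, hd, hN, hM, hMr, hL⟩ := exists_lists' p hodd g hg η hη ρ (K * K + (K - 1))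
  generalize hddef : 2 * t + ρ = d at hd hN hM hMr hL
  have hgp : g ≤ p ^ (2 * κ) :=
    (Nat.lt_pow_self hp1).le.trans (Nat.pow_le_pow_right hp.out.pos (by omega))
  have hgood := good_main p g M d κ K hd hK1 hD hgp hN hM hL
  obtain ⟨K', hK'⟩ : ∃ K', K = K' + 1 := ⟨K - 1, by omega⟩
  have e1 : d * (2 * K - 1) = d + 2 * (d * (K - 1)) := by
    rw [hK', show 2 * (K' + 1) - 1 = 1 + 2 * K' by omega, Nat.add_sub_cancel]
    ring
  have e2 : 2 * κ + d * (2 * K - 1) = 2 * (κ + t + d * (K - 1)) + ρ := by omega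
  refine ⟨κ + t + d * (K - 1), _, e2 ▸ hgood, ?_⟩
  rw [← e2, pow_add (√(p : ℝ))]
  have e3 := half_pow_le hp1 (d * (2 * K - 1))
  have e4 : ((p : ℝ) ^ d) ^ (K - 1) * √p ^ d = √p ^ (d * (2 * K - 1)) := by
    rw [← pow_mul, pow_eq_sqrt_pow p (d * (K - 1)), e1, pow_add, mul_comm]
  have e5 : g * (2 * √(p : ℝ)) ≤ (η - 1) * √p ^ (2 * κ) :=
    hκ1.trans (mul_le_mul_of_nonneg_left (pow_le_pow_right₀ hs.le (by omega)) (by linarith))
  have hη0 : 0 < η := by linarith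
  rw [Nat.cast_add, Nat.cast_mul, Nat.cast_mul, Nat.cast_mul, Nat.cast_mul, Nat.cast_pow,
    Nat.cast_pow, Nat.cast_pow, Nat.cast_ofNat, add_mul (η ^ 3 * √(g : ℝ))]
  refine add_le_add ?_ ?_
  · calc (K : ℝ) * (M * ((p : ℝ) ^ d) ^ (K - 1))
        ≤ η * √p ^ (2 * κ) * (η ^ 2 * √g * √p ^ d * ((p : ℝ) ^ d) ^ (K - 1)) := by gcongr
      _ = _ := by rw [← e4]; ring
  · calc (g : ℝ) * (2 * (p : ℝ) ^ ((d * (2 * K - 1) + 1) / 2))
        ≤ g * (2 * (√p * √p ^ (d * (2 * K - 1)))) := by gcongr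
      _ = g * (2 * √p) * √p ^ (d * (2 * K - 1)) := by ring
      _ ≤ (η - 1) * √p ^ (2 * κ) * √p ^ (d * (2 * K - 1)) := by gcongr
      _ = _ := by ring

theorem tendsto_parity (p : ℕ) [hp : Fact p.Prime] (hodd : Odd p) (g : ℕ) (hg : 0 < g) (ρ : ℕ) :
    Tendsto (fun k : ℕ => (eta g (Fin (2 * k + ρ) → ZMod p) : ℝ) / √((p : ℝ) ^ (2 * k + ρ)))
      atTop (𝓝 √g) := by
  have hp1 := hp.out.one_lt
  have hs := one_lt_sqrt hp1
  have hs0 : (0 : ℝ) < √p := one_pos.trans hs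
  have hsq : ∀ n : ℕ, √((p : ℝ) ^ n) = √p ^ n := by
    intro n
    rw [pow_eq_sqrt_pow p n, mul_comm, pow_mul, Real.sqrt_sq (by positivity)]
  have key : ∀ η : ℝ, 1 < η → ∀ᶠ k : ℕ in atTop,
      √g ≤ (eta g (Fin (2 * k + ρ) → ZMod p) : ℝ) / √((p : ℝ) ^ (2 * k + ρ)) ∧
      (eta g (Fin (2 * k + ρ) → ZMod p) : ℝ) / √((p : ℝ) ^ (2 * k + ρ)) ≤
        (η ^ 3 * √g + (η - 1)) * η := by
    intro η hη
    obtain ⟨t, m, hgood, hm⟩ := exists_good p hodd g hg η hη ρ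
    obtain ⟨n0, hn0⟩ := eventually_atTop.1 (eventually_big hp1 hη (2 * √p))
    filter_upwards [eventually_ge_atTop (t + n0 + 1)] with k hk
    obtain ⟨n, rfl⟩ : ∃ n, k = t + n := ⟨k - t, by omega⟩
    have h1 := hgood.prod (good_parabola p n hodd (by omega))
    rw [show 2 * t + ρ + 2 * n = 2 * (t + n) + ρ by ring] at h1
    obtain ⟨h2, h3⟩ := h1.eta_bounds
    have h4 := parabola_size hp1 (hn0 n (by omega))
    have hpos : (0 : ℝ) < √((p : ℝ) ^ (2 * (t + n) + ρ)) := by rw [hsq]; positivity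
    constructor
    · rw [le_div_iff₀ hpos, ← Real.sqrt_mul (Nat.cast_nonneg g)]
      refine Real.sqrt_le_iff.2 ⟨Nat.cast_nonneg _, ?_⟩
      exact_mod_cast h2
    · rw [div_le_iff₀ hpos, hsq]
      have h5 : (eta g (Fin (2 * (t + n) + ρ) → ZMod p) : ℝ) ≤
          (m : ℝ) * ((p ^ n + 2 * p ^ ((n + 1) / 2) : ℕ) : ℝ) := by exact_mod_cast h3
      have h6 : (0 : ℝ) ≤ (η ^ 3 * √g + (η - 1)) * √p ^ (2 * t + ρ) :=
        (Nat.cast_nonneg m).trans hm
      calc _ ≤ (m : ℝ) * ((p ^ n + 2 * p ^ ((n + 1) / 2) : ℕ) : ℝ) := h5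
        _ ≤ (η ^ 3 * √g + (η - 1)) * √p ^ (2 * t + ρ) * (η * √p ^ (2 * n)) := by gcongr
        _ = _ := by
          rw [show 2 * (t + n) + ρ = 2 * t + ρ + 2 * n by ring, pow_add (√(p : ℝ)) (2 * t + ρ)]
          ring
  rw [tendsto_order]
  constructor
  · intro c hc
    filter_upwards [key 2 one_lt_two] with k hk using hc.trans_le hk.1
  · intro c hc
    have hcont : Tendsto (fun η : ℝ => (η ^ 3 * √g + (η - 1)) * η) (𝓝[>] 1) (𝓝 √g) := by
      have : Continuous fun η : ℝ => (η ^ 3 * √(g : ℝ) + (η - 1)) * η := by fun_prop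
      have h1 := (this.tendsto 1).mono_left (nhdsWithin_le_nhds (s := Set.Ioi 1))
      simpa using h1
    obtain ⟨η, h1, h2⟩ := ((hcont.eventually_lt_const hc).and self_mem_nhdsWithin).exists
    filter_upwards [key η h2] with k hk using hk.2.trans_lt h1

end Pool.Agent.P.MP_ba1811_co
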